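import Mathlib

set_option autoImplicit false

namespace Pool.Agent.Results.MP_4926dc_gt.FlatQuotient

abbrev E := Fin 5 → ℝ

section
variable {F : Type} [NormedAddCommGroup F] [NormedSpace ℝ F]

/-- Only the identity has a fixed point. -/
def Free (Γ : Subgroup (F ≃ᵃ[ℝ] F)) : Prop := ∀ γ ∈ Γ, ∀ x, γ x = x → γ = 1

/-- Properly discontinuous action. -/
def ProperDisc (Γ : Subgroup (F ≃ᵃ[ℝ] F)) : Prop :=
  ∀ K : Set F, IsCompact K → {γ | γ ∈ Γ ∧ (γ '' K ∩ K).Nonempty}.Finite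

/-- Cocompact action. -/
def Cocompact (Γ : Subgroup (F ≃ᵃ[ℝ] F)) : Prop :=
  ∃ K : Set F, IsCompact K ∧ ∀ x, ∃ γ ∈ Γ, γ x ∈ K

/-- `g` is a constant pseudo-Riemannian metric preserved by `Γ`. -/
def InvMetric (Γ : Subgroup (F ≃ᵃ[ℝ] F)) (g : LinearMap.BilinForm ℝ F) : Prop :=
  g.IsSymm ∧ g.Nondegenerate ∧ ∀ γ ∈ Γ, ∀ u v, g (γ.linear u) (γ.linear v) = g u v

/-- `A` is a nonzero nilpotent self-adjoint constant tensor preserved by `Γ`. -/
def InvNil (Γ : Subgroup (F ≃ᵃ[ℝ] F)) (g : LinearMap.BilinForm ℝ F) (A : Module.End ℝ F) : Prop :=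
  A ≠ 0 ∧ IsNilpotent A ∧ (∀ u v, g (A u) v = g u (A v)) ∧
    ∀ γ ∈ Γ, ∀ u, γ.linear (A u) = A (γ.linear u)

/-- `V` is a `Γ`-invariant parallel light-like vector field of the flat metric `g`. -/
def ParNull (g : LinearMap.BilinForm ℝ F) (Γ : Subgroup (F ≃ᵃ[ℝ] F)) (V : F → F) : Prop :=
  Differentiable ℝ V ∧ (∀ x, fderiv ℝ V x = 0) ∧ (∀ γ ∈ Γ, ∀ x, V (γ x) = γ.linear (V x)) ∧
    ∀ x, g (V x) (V x) = 0

/-- No subgroup of index one or two has a nonzero invariant parallel light-like field. -/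
def NoNull (Γ : Subgroup (F ≃ᵃ[ℝ] F)) (g : LinearMap.BilinForm ℝ F) : Prop :=
  ∀ Γ' ≤ Γ, (Γ'.relIndex Γ = 1 ∨ Γ'.relIndex Γ = 2) → ∀ V, ParNull g Γ' V → V = 0

end

noncomputable def gg : LinearMap.BilinForm ℝ E :=
  LinearMap.mk₂ ℝ (fun u v => u 0 * v 2 + u 2 * v 0 + u 1 * v 3 + u 3 * v 1 + u 4 * v 4)
    (fun _ _ _ => by simp; ring) (fun _ _ _ => by simp; ring)
    (fun _ _ _ => by simp; ring) (fun _ _ _ => by simp; ring)

lemma gg_apply (u v : E) :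
    gg u v = u 0 * v 2 + u 2 * v 0 + u 1 * v 3 + u 3 * v 1 + u 4 * v 4 := rfl

noncomputable def AA : E →ₗ[ℝ] E where
  toFun u := ![u 2, u 3, 0, 0, 0]
  map_add' u v := by ext i; fin_cases i <;> simp
  map_smul' c u := by ext i; fin_cases i <;> simp

noncomputable def LL : E ≃ₗ[ℝ] E where
  toFun u := ![-u 1, u 0, -u 3, u 2, u 4]
  invFun u := ![u 1, -u 0, u 3, -u 2, u 4]
  map_add' u v := by ext i; fin_cases i <;> simp <;> ring
  map_smul' c u := by ext i; fin_cases i <;> simp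
  left_inv u := by ext i; fin_cases i <;> simp
  right_inv u := by ext i; fin_cases i <;> simp

def Zv (u : E) : Prop := ∀ i, ∃ n : ℤ, u i = n

def Good (M : E ≃ₗ[ℝ] E) : Prop := ∀ u, (Zv (M u) ↔ Zv u) ∧ M u 4 = u 4 ∧ ‖M u‖ = ‖u‖ ∧
  M (AA u) = AA (M u) ∧ ∀ v, gg (M u) (M v) = gg u v

def HH : Subgroup (E ≃ₗ[ℝ] E) where
  carrier := {M | Good M}
  one_mem' u := ⟨Iff.rfl, rfl, rfl, rfl, fun _ => rfl⟩
  mul_mem' {M N} hM hN u := by
    obtain ⟨a1, a2, a3, a4, a5⟩ := hM (N u)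
    obtain ⟨b1, b2, b3, b4, b5⟩ := hN u
    refine ⟨a1.trans b1, a2.trans b2, a3.trans b3, ?_, fun v => (a5 _).trans (b5 v)⟩
    show M (N (AA u)) = AA (M (N u))
    rw [b4, a4]
  inv_mem' {M} hM u := by
    obtain ⟨a1, a2, a3, a4, a5⟩ := hM (M.symm u)
    rw [M.apply_symm_apply] at a1 a2 a3 a4 a5
    refine ⟨a1.symm, a2.symm, a3.symm, ?_, fun v => ?_⟩
    · show M.symm (AA u) = AA (M.symm u)
      rw [← a4, M.symm_apply_apply]
    · have := a5 (M.symm v)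
      rw [M.apply_symm_apply] at this
      exact this.symm

lemma LL_apply (u : E) : LL u = ![-u 1, u 0, -u 3, u 2, u 4] := rfl

lemma AA_apply (u : E) : AA u = ![u 2, u 3, 0, 0, 0] := rfl

lemma neg_int {x : ℝ} : (∃ n : ℤ, -x = n) ↔ ∃ n : ℤ, x = n :=
  ⟨fun ⟨n, h⟩ => ⟨-n, by push_cast; linarith⟩, fun ⟨n, h⟩ => ⟨-n, by push_cast; linarith⟩⟩

lemma LL_good : LL ∈ HH := by
  intro u
  refine ⟨?_, rfl, ?_, ?_, fun v => ?_⟩
  · simp only [Zv, LL_apply, Fin.forall_fin_succ]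
    simp [neg_int]
    tauto
  · apply le_antisymm <;> refine (pi_norm_le_iff_of_nonneg (norm_nonneg _)).2 fun i => ?_
    · fin_cases i <;> simp only [LL_apply] <;> simpa using norm_le_pi_norm u _
    · fin_cases i
      · simpa [LL_apply] using norm_le_pi_norm (LL u) 1
      · simpa [LL_apply] using norm_le_pi_norm (LL u) 0
      · simpa [LL_apply] using norm_le_pi_norm (LL u) 3
      · simpa [LL_apply] using norm_le_pi_norm (LL u) 2
      · simpa [LL_apply] using norm_le_pi_norm (LL u) 4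
  · ext i; fin_cases i <;> simp [LL_apply, AA_apply]
  · simp [gg_apply, LL_apply]; ring

lemma pow_good (k : ℤ) : Good (LL ^ k) := HH.zpow_mem LL_good k

lemma aff (γ : E ≃ᵃ[ℝ] E) (x : E) : γ x = γ.linear x + γ 0 := by
  have := γ.map_vadd 0 x
  simpa using this

lemma Zv_add {u v : E} (hu : Zv u) (hv : Zv v) : Zv (u + v) := fun i => by
  obtain ⟨m, hm⟩ := hu i
  obtain ⟨n, hn⟩ := hv i
  exact ⟨m + n, by simp [hm, hn]⟩

def GG : Subgroup (E ≃ᵃ[ℝ] E) where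
  carrier := {γ | ∃ k : ℤ, γ.linear = LL ^ k ∧ γ 0 4 = k ∧ Zv (γ 0)}
  one_mem' := ⟨0, rfl, by simp, fun i => ⟨0, by simp⟩⟩
  mul_mem' := by
    rintro γ δ ⟨k, h1, h2, h3⟩ ⟨l, h4, h5, h6⟩
    have e : (γ * δ) 0 = (LL ^ k) (δ 0) + γ 0 := by rw [← h1, ← aff]; rfl
    refine ⟨k + l, by rw [zpow_add, ← h1, ← h4]; rfl, ?_, ?_⟩
    · rw [e, Pi.add_apply, (pow_good k _).2.1, h2, h5]; push_cast; ring
    · rw [e]; exact Zv_add ((pow_good k _).1.2 h6) h3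
  inv_mem' := by
    rintro γ ⟨k, h1, h2, h3⟩
    have e : (LL ^ k) (γ⁻¹ 0) = -γ 0 := by
      rw [← h1, eq_neg_iff_add_eq_zero, ← aff]; exact γ.apply_symm_apply 0
    refine ⟨-k, by rw [zpow_neg, ← h1]; rfl, ?_, ?_⟩
    · rw [← (pow_good k (γ⁻¹ 0)).2.1, e, Pi.neg_apply, h2]; simp
    · rw [← (pow_good k _).1, e]
      exact fun i => neg_int.2 (h3 i)

noncomputable def mk (k : ℤ) (a : E) : E ≃ᵃ[ℝ] E :=
  AffineEquiv.mk' (fun x => (LL ^ k) x + a) (LL ^ k) 0 (by simp [add_comm])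

lemma closed : Free GG ∧ ProperDisc GG ∧ Cocompact GG := by
  refine ⟨?_, ?_, Set.Icc 0 1, isCompact_Icc, fun x => ?_⟩
  · rintro γ ⟨k, h1, h2, _⟩ x hx
    rw [aff, h1] at hx
    have h4 := congrFun hx 4
    rw [Pi.add_apply, (pow_good k _).2.1, h2] at h4
    have hk : k = 0 := by exact_mod_cast (show (k : ℝ) = 0 by linarith)
    rw [hk, zpow_zero] at hx h1
    ext1 y
    rw [aff, h1, show γ 0 = 0 by simpa using hx]
    simp
  · intro K hK
    obtain ⟨R, hR⟩ := hK.isBounded.exists_norm_le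
    refine Set.Finite.of_finite_image (f := fun γ : E ≃ᵃ[ℝ] E => γ 0)
      (((Set.finite_Icc (fun _ => -⌈2 * R⌉) (fun _ => ⌈2 * R⌉)).image
        fun (n : Fin 5 → ℤ) i => (n i : ℝ)).subset ?_) ?_
    · rintro _ ⟨γ, ⟨⟨k, h1, _, h3⟩, _, ⟨x, hx, rfl⟩, hy⟩, rfl⟩
      choose n hn using h3
      have e : ‖γ 0‖ ≤ 2 * R := by
        have e1 := hR _ hy
        have e2 := hR _ hx
        have e3 : γ 0 = γ x - (LL ^ k) x := by rw [aff γ x, h1]; simp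
        rw [e3]
        refine (norm_sub_le _ _).trans ?_
        rw [(pow_good k _).2.2.1]
        linarith
      have e' : ∀ i, |n i| ≤ ⌈2 * R⌉ := fun i => by
        have := (norm_le_pi_norm _ i).trans (e.trans (Int.le_ceil _))
        rw [hn i, Real.norm_eq_abs] at this
        exact_mod_cast this
      exact ⟨n, ⟨fun i => (abs_le.1 (e' i)).1, fun i => (abs_le.1 (e' i)).2⟩,
        funext fun i => (hn i).symm⟩
    · rintro γ ⟨⟨k, h1, h2, _⟩, _⟩ δ ⟨⟨l, h4, h5, _⟩, _⟩ h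
      simp only at h
      have hk : k = l := by exact_mod_cast (show (k : ℝ) = l by rw [← h2, ← h5, h])
      ext1 y
      rw [aff, aff δ, h, h1, h4, hk]
  · refine ⟨mk (-⌊x 4⌋) fun i => -⌊(LL ^ (-⌊x 4⌋)) x i⌋, ⟨-⌊x 4⌋, rfl, ?_, fun i => ?_⟩, ?_⟩
    · show (LL ^ (-⌊x 4⌋)) 0 4 + -(⌊(LL ^ (-⌊x 4⌋)) x 4⌋ : ℝ) = _
      rw [(pow_good _ x).2.1]; simp
    · exact ⟨-⌊(LL ^ (-⌊x 4⌋)) x i⌋, by
        show (LL ^ (-⌊x 4⌋)) 0 i + -(⌊(LL ^ (-⌊x 4⌋)) x i⌋ : ℝ) = _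
        simp⟩
    · constructor <;> intro i
      · show (0 : ℝ) ≤ (LL ^ (-⌊x 4⌋)) x i + -(⌊(LL ^ (-⌊x 4⌋)) x i⌋ : ℝ)
        linarith [Int.floor_le ((LL ^ (-⌊x 4⌋)) x i)]
      · show (LL ^ (-⌊x 4⌋)) x i + -(⌊(LL ^ (-⌊x 4⌋)) x i⌋ : ℝ) ≤ 1
        linarith [Int.lt_floor_add_one ((LL ^ (-⌊x 4⌋)) x i)]

theorem result : ∃ (Γ : Subgroup (E ≃ᵃ[ℝ] E)) (g : LinearMap.BilinForm ℝ E) (A : Module.End ℝ E),
    Free Γ ∧ ProperDisc Γ ∧ Cocompact Γ ∧ InvMetric Γ g ∧ InvNil Γ g A ∧ NoNull Γ g := by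
  have hs : gg.IsSymm := ⟨fun u v => by simp only [gg_apply]; ring⟩
  refine ⟨GG, gg, AA, closed.1, closed.2.1, closed.2.2, ⟨hs, ?_, ?_⟩, ⟨?_, ⟨2, ?_⟩, ?_, ?_⟩, ?_⟩
  · refine (LinearMap.IsRefl.nondegenerate_iff_separatingLeft hs.isRefl).2 fun u hu => ?_
    ext i
    fin_cases i
    · simpa [gg_apply] using hu (Pi.single 2 1)
    · simpa [gg_apply] using hu (Pi.single 3 1)
    · simpa [gg_apply] using hu (Pi.single 0 1)
    · simpa [gg_apply] using hu (Pi.single 1 1)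
    · simpa [gg_apply] using hu (Pi.single 4 1)
  · rintro γ ⟨k, h1, _⟩ u v
    rw [h1]; exact (pow_good k u).2.2.2.2 v
  · intro h
    simpa [AA_apply] using congrFun (LinearMap.congr_fun h (Pi.single 2 1)) 0
  · refine LinearMap.ext fun u => funext fun i => ?_
    fin_cases i <;> simp [pow_two, AA_apply]
  · intro u v
    simp [gg_apply, AA_apply]
  · rintro γ ⟨k, h1, _⟩ u
    rw [h1]; exact (pow_good k u).2.2.2.1
  · rintro Γ' hle hi V ⟨h1, h2, h3, h4⟩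
    have hφ : mk 1 (Pi.single 4 1) ∈ GG := ⟨1, rfl, by
      show (LL ^ (1 : ℤ)) 0 4 + (Pi.single 4 1 : E) 4 = _
      simp, fun i => ⟨(Pi.single 4 1 : Fin 5 → ℤ) i, by
        show (LL ^ (1 : ℤ)) 0 i + (Pi.single 4 1 : E) i = _
        fin_cases i <;> simp⟩⟩
    have h5 : mk 1 (Pi.single 4 1) * mk 1 (Pi.single 4 1) ∈ Γ' := by
      rcases hi with hi | hi
      · exact Subgroup.relIndex_eq_one.1 hi (GG.mul_mem hφ hφ)
      · exact Subgroup.mul_self_mem_of_index_two hi ⟨_, hφ⟩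
    ext1 x
    have h6 := h3 _ h5 x
    rw [is_const_of_fderiv_eq_zero h1 h2 _ x] at h6
    have h7 : V x = LL (LL (V x)) := h6
    have h8 := h4 x
    rw [gg_apply] at h8
    have a0 := congrFun h7 0
    have a1 := congrFun h7 1
    have a2 := congrFun h7 2
    have a3 := congrFun h7 3
    simp [LL_apply] at a0 a1 a2 a3
    have b0 : V x 0 = 0 := by linarith
    have b1 : V x 1 = 0 := by linarith
    have b2 : V x 2 = 0 := by linarith
    have b3 : V x 3 = 0 := by linarith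
    have b4 : V x 4 = 0 := by simpa [b0, b1, b2, b3] using h8
    ext i
    fin_cases i <;> simp [b0, b1, b2, b3, b4]

end Pool.Agent.Results.MP_4926dc_gt.FlatQuotient
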